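import Mathlib

/-!
# Project WU (helper889), part MON: monogenicity over a local ring, abstract form (by helper374)
-/

set_option autoImplicit false

open Polynomial IsDedekindDomain

namespace Pool.Agent.N374.WU

section abs

variable {k B : Type*} [Field k] [CommRing B] [IsDedekindDomain B] [Algebra k B]

/-- powers of an element of order one -/
lemma pow_notMem (v : HeightOneSpectrum B) {w : B} (h1 : w ∈ v.asIdeal) (h2 : w ∉ v.asIdeal ^ 2)
    (N : ℕ) : w ^ N ∉ v.asIdeal ^ (N + 1) := by
  have e1 : v.intValuation w = WithZero.exp (-(1 : ℤ)) := by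
    apply le_antisymm
    · have := (v.intValuation_le_pow_iff_mem w 1).2 (by rwa [pow_one])
      simpa using this
    · by_contra hlt
      rw [not_le] at hlt
      apply h2
      rw [← v.intValuation_le_pow_iff_mem]
      have hw : v.intValuation w ≠ 0 ∨ v.intValuation w = 0 := (em _).symm
      rcases hw with hw | hw
      · obtain ⟨n, hn⟩ : ∃ n : ℤ, v.intValuation w = WithZero.exp n :=
          ⟨WithZero.log (v.intValuation w), (WithZero.exp_log hw).symm⟩
        rw [hn] at hlt ⊢
        rw [WithZero.exp_lt_exp] at hlt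
        rw [WithZero.exp_le_exp]
        push_cast
        omega
      · rw [hw]
        exact zero_le
  intro h
  rw [← v.intValuation_le_pow_iff_mem, map_pow, e1, ← WithZero.exp_nsmul, WithZero.exp_le_exp] at h
  simp at h

/-- local approximation by polynomials -/
lemma local_approx (v : HeightOneSpectrum B) (hres : ∀ b : B, ∃ a : k, b - algebraMap k B a ∈ v.asIdeal)
    {x : B} {a : k} (h1 : x - algebraMap k B a ∈ v.asIdeal)
    (h2 : x - algebraMap k B a ∉ v.asIdeal ^ 2) (b : B) (N : ℕ) :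
    ∃ q : k[X], b - aeval x q ∈ v.asIdeal ^ N := by
  induction N with
  | zero => exact ⟨0, by simp⟩
  | succ N ih =>
    obtain ⟨q, hq⟩ := ih
    have hw := pow_notMem v h1 h2 N
    obtain ⟨d, e, he, hde⟩ := Ideal.exists_mul_add_mem_pow_succ v.ne_bot
      ((x - algebraMap k B a) ^ N) (b - aeval x q) (Ideal.pow_mem_pow h1 N) hw hq
    obtain ⟨κ, hκ⟩ := hres d
    refine ⟨q + C κ * (X - C a) ^ N, ?_⟩
    have e1 : b - aeval x (q + C κ * (X - C a) ^ N) =
        (x - algebraMap k B a) ^ N * (d - algebraMap k B κ) + e := by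
      rw [map_add, map_mul, map_pow, map_sub, aeval_X, aeval_C, aeval_C, ← sub_sub, ← hde]
      ring
    rw [e1]
    refine Ideal.add_mem _ ?_ he
    rw [pow_succ]
    exact Ideal.mul_mem_mul (Ideal.pow_mem_pow h1 N) hκ

/-- the element `x` -/
lemma exists_gen [Infinite k] (I : Ideal B) (hI : I ≠ ⊥)
    (hres : ∀ v : HeightOneSpectrum B, I ≤ v.asIdeal → ∀ b : B, ∃ a : k,
      b - algebraMap k B a ∈ v.asIdeal) :
    ∃ x : B, ∀ b : B, ∃ q : k[X], b - aeval x q ∈ I := by
  classical
  let ι := {v : HeightOneSpectrum B // v.asIdeal ∣ I}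
  have : Finite ι := Ideal.finite_factors hI
  have hdvd : ∀ v : HeightOneSpectrum B, v.asIdeal ∣ I ↔ I ≤ v.asIdeal := fun v => Ideal.dvd_iff_le
  let φ : ι → k := fun i => Infinite.natEmbedding k (Finite.equivFin ι i)
  have hφ : Function.Injective φ := by
    intro i j hij
    exact (Finite.equivFin ι).injective (Fin.ext ((Infinite.natEmbedding k).injective hij))
  have huni : ∀ i : ι, ∃ p : B, p ∈ i.1.asIdeal ∧ p ∉ i.1.asIdeal ^ 2 := by
    intro i
    obtain ⟨p, h1, h2⟩ := Ideal.exists_mem_pow_notMem_pow_succ i.1.asIdeal i.1.ne_bot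
      i.1.isPrime.ne_top 1
    exact ⟨p, by rwa [pow_one] at h1, h2⟩
  choose p hp1 hp2 using huni
  have hcop : ∀ N : ℕ, Pairwise (Function.onFun IsCoprime fun i : ι => i.1.asIdeal ^ N) := by
    intro N i j hij
    refine IsCoprime.pow ?_
    refine Ideal.isCoprime_iff_sup_eq.2 ?_
    have := i.1.isMaximal
    have := j.1.isMaximal
    refine Ideal.IsMaximal.coprime_of_ne i.1.isMaximal j.1.isMaximal fun h => hij ?_
    exact Subtype.ext (HeightOneSpectrum.ext h)
  obtain ⟨x, hx⟩ := Ideal.exists_forall_sub_mem_ideal (hcop 2)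
    (fun i => algebraMap k B (φ i) + p i)
  have hx1 : ∀ i : ι, x - algebraMap k B (φ i) ∈ i.1.asIdeal := by
    intro i
    have h1 := Ideal.pow_le_self (n := 2) (by norm_num) (hx i)
    have h2 := i.1.asIdeal.add_mem h1 (hp1 i)
    have e : x - (algebraMap k B (φ i) + p i) + p i = x - algebraMap k B (φ i) := by ring
    rwa [e] at h2
  have hx2 : ∀ i : ι, x - algebraMap k B (φ i) ∉ i.1.asIdeal ^ 2 := by
    intro i h
    apply hp2 i
    have h2 := (i.1.asIdeal ^ 2).sub_mem h (hx i)
    have e : x - algebraMap k B (φ i) - (x - (algebraMap k B (φ i) + p i)) = p i := by ring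
    rwa [e] at h2
  -- a power of the radical
  obtain ⟨N, hN⟩ := Ideal.exists_radical_pow_le_of_fg I (IsNoetherian.noetherian _)
  refine ⟨x, fun b => ?_⟩
  have hloc : ∀ i : ι, ∃ q : k[X], b - aeval x q ∈ i.1.asIdeal ^ N := fun i =>
    local_approx i.1 (hres i.1 ((hdvd _).1 i.2)) (hx1 i) (hx2 i) b N
  choose q hq using hloc
  have hcop2 : Pairwise (Function.onFun IsCoprime fun i : ι => Ideal.span {(X - C (φ i)) ^ N}) := by
    intro i j hij
    refine (Ideal.isCoprime_span_singleton_iff _ _).2 ?_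
    exact (pairwise_coprime_X_sub_C hφ hij).pow
  obtain ⟨Q, hQ⟩ := Ideal.exists_forall_sub_mem_ideal hcop2 q
  refine ⟨Q, ?_⟩
  have h1 : ∀ i : ι, b - aeval x Q ∈ i.1.asIdeal ^ N := by
    intro i
    obtain ⟨r, hr⟩ := Ideal.mem_span_singleton.1 (hQ i)
    have e : b - aeval x Q = (b - aeval x (q i)) - (x - algebraMap k B (φ i)) ^ N * aeval x r := by
      have e1 : aeval x (Q - q i) = aeval x ((X - C (φ i)) ^ N * r) := by rw [hr]
      rw [map_sub, map_mul, map_pow, map_sub, aeval_X, aeval_C] at e1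
      rw [← e1]
      ring
    rw [e]
    exact (i.1.asIdeal ^ N).sub_mem (hq i) (Ideal.mul_mem_right _ _ (Ideal.pow_mem_pow (hx1 i) N))
  apply hN
  have : Fintype ι := Fintype.ofFinite ι
  have h2 : b - aeval x Q ∈ (Finset.univ : Finset ι).inf fun i => i.1.asIdeal ^ N := by
    rw [Finset.inf_eq_iInf]
    simp only [Submodule.mem_iInf]
    intro i _
    exact h1 i
  rw [HeightOneSpectrum.inf_pow_eq_prod Finset.univ (fun _ => N) (fun i : ι => i.1)
    (fun i _ j _ hij h => hij (Subtype.ext h)), Finset.prod_pow] at h2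
  refine Ideal.pow_right_mono ?_ N h2
  rw [Ideal.radical_eq_sInf]
  refine le_sInf ?_
  rintro J ⟨hJ1, hJ2⟩
  have hJ0 : J ≠ ⊥ := by
    rintro rfl
    exact hI (le_bot_iff.1 hJ1)
  let v : HeightOneSpectrum B := ⟨J, hJ2, hJ0⟩
  have hv : v.asIdeal ∣ I := (hdvd v).2 hJ1
  refine (Ideal.prod_le_inf).trans ?_
  exact Finset.inf_le (f := fun i : ι => i.1.asIdeal) (Finset.mem_univ (⟨v, hv⟩ : ι))

end abs

/-- **Monogenicity over a local ring.** -/
theorem mono_abs {k O B : Type*} [Field k] [Infinite k] [CommRing O] [IsLocalRing O] [CommRing B]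
    [IsDedekindDomain B] [Algebra k B] [Algebra O B] [Module.Finite O B] (ι : k →+* O)
    (hι : ∀ a, algebraMap O B (ι a) = algebraMap k B a) (π : O)
    (hπ : π ∈ IsLocalRing.maximalIdeal O) (hπ0 : algebraMap O B π ≠ 0)
    (hres : ∀ v : HeightOneSpectrum B, algebraMap O B π ∈ v.asIdeal → ∀ b : B, ∃ a : k,
      b - algebraMap k B a ∈ v.asIdeal) :
    ∃ x : B, ∀ b : B, ∃ q : O[X], b = aeval x q := by
  obtain ⟨x, hx⟩ := exists_gen (k := k) (Ideal.span {algebraMap O B π})
    (by rwa [Ne, Ideal.span_singleton_eq_bot])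
    (fun v hv => hres v (hv (Ideal.mem_span_singleton_self _)))
  refine ⟨x, fun b => ?_⟩
  have hN : (⊤ : Submodule O B) ≤ Subalgebra.toSubmodule (Algebra.adjoin O {x}) := by
    refine Submodule.le_of_le_smul_of_le_jacobson_bot (I := Ideal.span {π}) Module.Finite.fg_top
      ?_ ?_
    · rw [IsLocalRing.jacobson_eq_maximalIdeal _ bot_ne_top, Ideal.span_singleton_le_iff_mem]
      exact hπ
    · intro b _
      obtain ⟨q, hq⟩ := hx b
      obtain ⟨c, hc⟩ := Ideal.mem_span_singleton.1 hq
      have e : b = aeval x (q.map ι) + π • c := by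
        have e1 : aeval x (q.map ι) = aeval x q := by
          rw [aeval_def, aeval_def, eval₂_map]
          congr 1
          ext a
          exact hι a
        rw [e1, Algebra.smul_def, ← hc]
        ring
      rw [e]
      refine Submodule.add_mem_sup ?_ ?_
      · rw [Subalgebra.mem_toSubmodule, Algebra.adjoin_singleton_eq_range_aeval]
        exact ⟨_, rfl⟩
      · exact Submodule.smul_mem_smul (Ideal.mem_span_singleton_self _) trivial
  have h1 := hN (Submodule.mem_top (x := b))
  rw [Subalgebra.mem_toSubmodule, Algebra.adjoin_singleton_eq_range_aeval] at h1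
  obtain ⟨q, hq⟩ := h1
  exact ⟨q, hq.symm⟩

end Pool.Agent.N374.WU
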