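import Pool.Agent.N889.WU.Stm
import Pool.Agent.N374.WU.MonA

/-!
# Project WU (helper889), part MON: the integral closure of the local ring is monogenic
(by helper374)
-/

set_option autoImplicit false

open Polynomial IntermediateField IsDedekindDomain

namespace Pool.Agent.N374.WU

open Pool.Agent.N889.WU

universe u

section base

variable {k L : Type u} [Field k] [Field L] [Algebra k L] {π : L}

lemma aeval_mem (f : k[X]) : aeval π f ∈ Oz k π := ⟨f, 1, by simp, by simp⟩

/-- polynomials in `π` -/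
noncomputable def tO (k : Type u) {L : Type u} [Field k] [Field L] [Algebra k L] (π : L) :
    k[X] →+* Oz k π :=
  RingHom.codRestrict (aeval π : k[X] →ₐ[k] L).toRingHom (Oz k π) (fun f => aeval_mem f)

lemma tO_coe (f : k[X]) : ((tO k π f : Oz k π) : L) = aeval π f := rfl

lemma aeval_ne (hπ : Transcendental k π) {f : k[X]} (hf : f ≠ 0) : aeval π f ≠ 0 := fun h =>
  hf ((transcendental_iff.1 hπ) f h)

/-- the prime ideal of the polynomials vanishing at zero -/
noncomputable abbrev P0 (k : Type u) [Field k] : Ideal k[X] := Ideal.span {(X : k[X])}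

lemma mem_P0 (f : k[X]) : f ∈ P0 k ↔ f.coeff 0 = 0 := by
  rw [Ideal.mem_span_singleton, X_dvd_iff]

instance : (P0 k).IsPrime := (Ideal.span_singleton_prime X_ne_zero).2 prime_X

lemma P0_ne : P0 k ≠ ⊥ := by
  rw [Ne, Ideal.span_singleton_eq_bot]
  exact X_ne_zero

lemma mem_compl (f : k[X]) : f ∈ (P0 k).primeCompl ↔ f.coeff 0 ≠ 0 := by
  rw [Ideal.mem_primeCompl_iff, mem_P0]

lemma ne_of_coeff {f : k[X]} (h : f.coeff 0 ≠ 0) : f ≠ 0 := by
  rintro rfl
  simp at h

lemma tO_unit (hπ : Transcendental k π) {f : k[X]} (h : f.coeff 0 ≠ 0) : IsUnit (tO k π f) := by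
  have h0 := aeval_ne hπ (ne_of_coeff h)
  refine IsUnit.of_mul_eq_one ⟨(aeval π f)⁻¹, ⟨1, f, h, ?_⟩⟩ ?_
  · rw [inv_mul_cancel₀ h0, map_one]
  · apply Subtype.ext
    exact mul_inv_cancel₀ h0

lemma isLoc (hπ : Transcendental k π) :
    @IsLocalization k[X] _ (P0 k).primeCompl (Oz k π) _ (tO k π).toAlgebra := by
  let _ : Algebra k[X] (Oz k π) := (tO k π).toAlgebra
  refine ⟨⟨?_, ?_, ?_⟩⟩
  · rintro ⟨y, hy⟩
    exact tO_unit hπ ((mem_compl y).1 hy)
  · rintro ⟨z, f, g, hg, h⟩
    exact ⟨(f, ⟨g, (mem_compl g).2 hg⟩), Subtype.ext h⟩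
  · intro f g h
    refine ⟨1, ?_⟩
    have h1 : aeval π f = aeval π g := congrArg Subtype.val h
    have h2 : f = g := by
      by_contra hne
      exact aeval_ne hπ (sub_ne_zero.2 hne) (by rw [map_sub, h1, sub_self])
    rw [h2]

lemma isDVR (hπ : Transcendental k π) : IsDiscreteValuationRing (Oz k π) := by
  let _ : Algebra k[X] (Oz k π) := (tO k π).toAlgebra
  have : IsLocalization.AtPrime (Oz k π) (P0 k) := isLoc hπ
  exact IsLocalization.AtPrime.isDiscreteValuationRing_of_dedekind_domain k[X] P0_ne (Oz k π)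

/-- the value at zero -/
lemma exists_rho (hπ : Transcendental k π) : ∃ ρ : Oz k π →+* k, ρ (tO k π X) = 0 ∧
    ∀ o : Oz k π, ∃ y : Oz k π, o = tO k π (C (ρ o)) + tO k π X * y := by
  let _ : Algebra k[X] (Oz k π) := (tO k π).toAlgebra
  have : IsLocalization.AtPrime (Oz k π) (P0 k) := isLoc hπ
  have hu : ∀ y : (P0 k).primeCompl, IsUnit (constantCoeff (y : k[X])) := by
    rintro ⟨y, hy⟩
    exact isUnit_iff_ne_zero.2 ((mem_compl y).1 hy)
  refine ⟨IsLocalization.lift hu, (IsLocalization.lift_eq hu X).trans coeff_X_zero, fun o => ?_⟩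
  obtain ⟨z, f, g, hg, h⟩ := o
  have ho : (⟨z, f, g, hg, h⟩ : Oz k π) * tO k π g = tO k π f := Subtype.ext h
  set o : Oz k π := ⟨z, f, g, hg, h⟩ with hod
  set ρ : Oz k π →+* k := IsLocalization.lift hu with hρ
  have hρt : ∀ f : k[X], ρ (tO k π f) = f.coeff 0 := fun f => IsLocalization.lift_eq hu f
  have h1 : ρ o * g.coeff 0 = f.coeff 0 := by
    rw [← hρt g, ← map_mul, ho, hρt]
  obtain ⟨r, hr⟩ := X_dvd_iff.2 (show (f - C (ρ o) * g).coeff 0 = 0 by
    rw [coeff_sub, mul_coeff_zero, coeff_C_zero, h1, sub_self])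
  obtain ⟨w, hw⟩ := tO_unit hπ hg
  refine ⟨tO k π r * ((w⁻¹ : (Oz k π)ˣ) : Oz k π), ?_⟩
  have h2 : (o - tO k π (C (ρ o))) * tO k π g = tO k π X * tO k π r := by
    rw [sub_mul, ho, ← map_mul, ← map_sub, hr, map_mul]
  rw [← hw] at h2
  have h3 : o - tO k π (C (ρ o)) = tO k π X * tO k π r * ((w⁻¹ : (Oz k π)ˣ) : Oz k π) := by
    rw [← h2, mul_assoc, Units.mul_inv, mul_one]
  rw [← mul_assoc, ← h3]
  ring

lemma mem_K (hπ : Transcendental k π) {x : L} (hx : x ∈ Oz k π) : x ∈ k⟮π⟯ := by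
  obtain ⟨f, g, hg, h⟩ := hx
  rw [mem_adjoin_simple_iff]
  exact ⟨f, g, by rw [← h, mul_div_cancel_right₀ _ (aeval_ne hπ (ne_of_coeff hg))]⟩

/-- the inclusion into `k(π)` -/
noncomputable def tK (hπ : Transcendental k π) : Oz k π →+* k⟮π⟯ where
  toFun x := ⟨x, mem_K hπ x.2⟩
  map_one' := rfl
  map_mul' _ _ := rfl
  map_zero' := rfl
  map_add' _ _ := rfl

lemma isFrac (hπ : Transcendental k π) :
    @IsFractionRing (Oz k π) _ k⟮π⟯ _ (tK hπ).toAlgebra := by
  let _ : Algebra (Oz k π) k⟮π⟯ := (tK hπ).toAlgebra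
  refine ⟨⟨?_, ?_, ?_⟩⟩
  · rintro ⟨y, hy⟩
    refine isUnit_iff_ne_zero.2 fun h => ?_
    have h1 : y = 0 := Subtype.ext (congrArg (fun z : k⟮π⟯ => (z : L)) h)
    exact nonZeroDivisors.ne_zero hy h1
  · rintro ⟨z, hz⟩
    obtain ⟨r, s, h⟩ := (mem_adjoin_simple_iff k z).1 hz
    by_cases hs : aeval π s = 0
    · rw [hs, div_zero] at h
      refine ⟨(0, 1), Subtype.ext ?_⟩
      show z * 1 = 0
      rw [h, zero_mul]
    · refine ⟨(tO k π r, ⟨tO k π s, mem_nonZeroDivisors_of_ne_zero fun h0 =>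
        hs (congrArg (fun z : Oz k π => (z : L)) h0)⟩), Subtype.ext ?_⟩
      show z * aeval π s = aeval π r
      rw [h, div_mul_cancel₀ _ hs]
  · intro x y h
    refine ⟨1, ?_⟩
    have h1 : x = y := Subtype.ext (congrArg (fun z : k⟮π⟯ => (z : L)) h)
    rw [h1]

end base

/-- **The integral closure of the local ring is generated by one element.** -/
theorem t_MON : S_MON.{u} := by
  intro k L _ _ _ _ π hS
  obtain ⟨hπ, hfd, hsep⟩ := hS
  let _ : Algebra (Oz k π) k⟮π⟯ := (tK hπ).toAlgebra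
  have : IsFractionRing (Oz k π) k⟮π⟯ := isFrac hπ
  have : IsScalarTower (Oz k π) k⟮π⟯ L := IsScalarTower.of_algebraMap_eq fun x => rfl
  have := isDVR hπ
  have : Module.Finite (Oz k π) (integralClosure (Oz k π) L) :=
    IsIntegralClosure.finite (Oz k π) k⟮π⟯ L (integralClosure (Oz k π) L)
  have : IsDedekindDomain (integralClosure (Oz k π) L) :=
    IsIntegralClosure.isDedekindDomain (Oz k π) k⟮π⟯ L (integralClosure (Oz k π) L)
  let _ : Algebra k (integralClosure (Oz k π) L) :=
    ((algebraMap (Oz k π) (integralClosure (Oz k π) L)).comp ((tO k π).comp C)).toAlgebra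
  obtain ⟨ρ, hρX, hρ⟩ := exists_rho hπ
  have : Infinite k := IsAlgClosed.instInfinite
  obtain ⟨x, hx⟩ := mono_abs (k := k) (O := Oz k π) (B := integralClosure (Oz k π) L)
    ((tO k π).comp C) (fun a => rfl) (tO k π X) (by
      rw [IsLocalRing.mem_maximalIdeal, mem_nonunits_iff]
      intro h
      have h1 := h.map ρ
      rw [hρX] at h1
      exact not_isUnit_zero h1) (by
      intro h
      have h1 : aeval π (X : k[X]) = 0 :=
        congrArg (fun z : integralClosure (Oz k π) L => (z : L)) h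
      exact aeval_ne hπ X_ne_zero h1) (by
      intro v hv b
      have hcomp : (algebraMap k (integralClosure (Oz k π) L ⧸ v.asIdeal)).comp ρ =
          (Ideal.Quotient.mk v.asIdeal).comp
            (algebraMap (Oz k π) (integralClosure (Oz k π) L)) := by
        ext o
        refine Ideal.Quotient.eq.2 ?_
        obtain ⟨y, hy⟩ := hρ o
        have e : algebraMap k (integralClosure (Oz k π) L) (ρ o) -
            algebraMap (Oz k π) (integralClosure (Oz k π) L) o =
            -(algebraMap (Oz k π) (integralClosure (Oz k π) L) (tO k π X) *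
              algebraMap (Oz k π) (integralClosure (Oz k π) L) y) := by
          have e1 : algebraMap k (integralClosure (Oz k π) L) (ρ o) =
            algebraMap (Oz k π) (integralClosure (Oz k π) L) (tO k π (C (ρ o))) := rfl
          rw [e1, ← map_mul, ← map_sub, ← map_neg]
          congr 1
          linear_combination (-1 : Oz k π) * hy
        rw [e]
        exact v.asIdeal.neg_mem (Ideal.mul_mem_right _ _ hv)
      have hint : Algebra.IsIntegral k (integralClosure (Oz k π) L ⧸ v.asIdeal) := by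
        refine ⟨fun y => ?_⟩
        obtain ⟨b, rfl⟩ := Ideal.Quotient.mk_surjective y
        exact IsIntegral.map_of_comp_eq ρ (Ideal.Quotient.mk v.asIdeal) hcomp
          (Algebra.IsIntegral.isIntegral b)
      have hdom : IsDomain (integralClosure (Oz k π) L ⧸ v.asIdeal) :=
        (Ideal.Quotient.isDomain_iff_prime _).2 v.isPrime
      obtain ⟨a, ha⟩ := (IsAlgClosed.algebraMap_bijective_of_isIntegral (k := k)
        (K := integralClosure (Oz k π) L ⧸ v.asIdeal)).2 (Ideal.Quotient.mk v.asIdeal b)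
      exact ⟨a, Ideal.Quotient.eq.1 ha.symm⟩)
  refine ⟨x, x.2, fun b hb => ?_⟩
  obtain ⟨q, hq⟩ := hx ⟨b, hb⟩
  refine ⟨q, ?_⟩
  have h1 : b = ((aeval x q : integralClosure (Oz k π) L) : L) :=
    congrArg (fun z : integralClosure (Oz k π) L => (z : L)) hq
  rw [h1]
  exact (Polynomial.aeval_algebraMap_apply L x q).symm

end Pool.Agent.N374.WU
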